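import Pool.Agent.Run7.h10.QS.E7

/-!
The dimension of the space of periods in a family of motives: at almost all algebraic fibres it is the dimension at a
very general fibre, an upper bound without truncation and a lower bound in growing degree and height.

Let `M_z` be a family of Nori motives over an open subset `U` of `ℂ ^ X` (for a family over a variety étale over the
affine space the coordinates of the variety, algebraic functions, are included in `f`), and let `f z` be the family of
all entries of the period matrix of `M_z`, or of some of its rows. The period conjecture for an algebraic fibre `M_s`, in
the form that the evaluation of the formal periods is injective, implies that the dimension over the algebraic numbers of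
the space of periods of `M_s` is the dimension `e` of the space of its formal periods (the algebra generated by `G(M_s)` in
`End(H_B)`, of the same dimension `e` for all fibres outside of a thin set), and that all linear relations are motivic.
We show that in an **arbitrary** family this dimension is the same number `r` for almost all algebraic fibres and for
the very general fibre, over the field of constants `k_z`, the algebraic closure of `ℚ(z)`. Hence the linear period
conjecture for one fibre `M_s`, which is not exceptional, implies the relative statement `r = e` for very general
fibres, and this statement implies that almost all algebraic fibres satisfy the linear period conjecture, in growing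
degree and height. No hypothesis is made on the monodromy and no differential equation is used: `f` is any analytic
function. For the monomials of degree at most `d` in the periods the theorem describes the Hilbert function of the ideal
of the relations over the algebraic numbers.

The difficulty is that `f` may contain constants (for instance periods of a fixed motive, `2 π i`) and that relations
over the algebraic numbers must be distinguished from relations over `ℂ(z)`. For the lower bound we use the norm of
the linear form `∑ c_j f_j` with indeterminate coefficients over a transcendence basis of the field generated by the
functions over `ℚ̄(z)`; the norm is again a polynomial in functions independent over `ℚ̄(z)`, to which the count of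
the starting library applies, and it does not vanish for algebraic values of the `c_j` since the functions `f_j` are
independent over the algebraic closure of `ℚ̄(z)`.
-/

open NumberField

namespace Pool.Agent.Results.MP_ae0f86_nt.DimensionOfPeriodSpaces

open Pool.Agent.Run7.h10.QS

section
variable {X σ : Type} [Fintype X] (K : Type) [Field K] [NumberField K]

/-- The points at which the space of periods is too large: the numbers `f s i` generate a space of dimension greater
than `r` over the field of algebraic numbers. -/
def Large (U : Set (X → ℂ)) (f : (X → ℂ) → σ → ℂ) (r : ℕ) (io : K →+* ℂ) (k : ℕ) (T : ℝ) : Set (X → K) :=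
  {s | s ∈ Points K U io k T ∧ r < dim f fun i => io (s i)}

/-- The points at which the numbers `f s (J l)` satisfy a nontrivial linear relation, whose coefficients are integers of
`K` with all conjugates of absolute value at most `T ^ k`. -/
def Related (U : Set (X → ℂ)) (f : (X → ℂ) → σ → ℂ) {r : ℕ} (J : Fin r → σ) (io : K →+* ℂ) (k : ℕ) (T : ℝ) :
    Set (X → K) :=
  {s | s ∈ Points K U io k T ∧ ∃ c : Fin r → 𝓞 K, c ≠ 0 ∧ (∀ l (φ : K →+* ℂ), ‖φ (c l : K)‖ ≤ T ^ k) ∧
    ∑ l, io (c l : K) * f (fun i => io (s i)) (J l) = 0}

end

/-- Let `U` be a nonempty open connected subset of `ℂ ^ X` and `f : U → ℂ ^ σ` analytic. For a point `z` let `dim f z` be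
the dimension of the space generated by the numbers `f z i` over the algebraic closure `Const z` of `ℚ(z)` in `ℂ`; if `z` is
algebraic, this is the field of algebraic numbers. Very general points, at which no relation over the algebraic numbers
holds which does not hold on the whole graph of `f`, are dense. There are a number `r` and `r` of the functions such that:
(1) at all very general points the dimension is `r` and the values of the `r` functions are a basis;
(2) `dim f z ≤ r` at all points `z` of `U` outside of the zeros of a nonzero function `R(z, f z)`, where `R` is a
polynomial over the algebraic numbers;
(3) few algebraic points `s` satisfy `dim f s > r`: there is `ω → ∞` such that for all large `T` and all number fields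
`K` of degree at most `ω T`, embedded in `ℂ`, these points over `K` of height at most `T` (of norm at most `ω T` and
distance at least `1 / ω T` from the complement of `U`) lie on at most `T ^ (1 / ω T)` hypersurfaces of degree at most
`T ^ (1 / ω T)`, and there are at most `T ^ (1 / ω T) * N ^ (|X| - 1)` of them, `N` being the number of elements of `K` of
height at most `T`;
(4) in the same sense there are few points `s` over `K` at which the values of the `r` functions satisfy a nontrivial
linear relation with coefficients in the integers of `K` of size at most `T ^ ω T`. -/
theorem result {X σ : Type} [Fintype X] [DecidableEq X] [Nonempty X] [Fintype σ] [DecidableEq σ]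
    {U : Set (X → ℂ)} (hUo : IsOpen U) (hU : IsPreconnected U) (hne : U.Nonempty)
    {f : (X → ℂ) → σ → ℂ} (hf : ∀ i, AnalyticOnNhd ℂ (fun z => f z i) U) :
    (∀ z : X → ℂ, (∀ i, IsAlgebraic ℚ (z i)) → ∀ x : ℂ, x ∈ Const z ↔ IsAlgebraic ℚ x) ∧
    (∀ V : Set (X → ℂ), IsOpen V → (V ∩ U).Nonempty → ∃ z ∈ V ∩ U, VeryGeneral U f z) ∧
    ∃ (r : ℕ) (J : Fin r → σ), Function.Injective J ∧
      (∀ z ∈ U, VeryGeneral U f z → dim f z = r ∧ LinearIndependent (Const z) fun l => f z (J l)) ∧
      (∃ R : MvPolynomial (X ⊕ σ) (algebraicClosure ℚ ℂ),
        (∃ z ∈ U, MvPolynomial.aeval (Sum.elim z (f z)) R ≠ 0) ∧
        ∀ z ∈ U, MvPolynomial.aeval (Sum.elim z (f z)) R ≠ 0 → dim f z ≤ r) ∧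
      (Few fun K _ _ io k T => Large K U f r io k T) ∧
      (Few fun K _ _ io k T => Related K U f J io k T) := by
  obtain ⟨r, J, hJ, h1, h2, h3, h4, h5⟩ := dim_main hU hUo hne hf
  exact ⟨fun z hz x => mem_const_iff hz x, fun V hV hVU => exists_vg hU hUo hf hV hVU,
    r, J, hJ, fun z hz hv => ⟨h2 z hz hv, h1 z hz hv⟩, h3, h4, h5⟩

end Pool.Agent.Results.MP_ae0f86_nt.DimensionOfPeriodSpaces
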