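import Pool.Agent.Run7.h2.UO.QMain

set_option autoImplicit false

/-!
# 1-motives over abelian varieties with odd balls, unitary places and spin parts

Let `M = [ℤ^n → G_Q]` be a 1-motive over the field `ℚ̄` of algebraic numbers, `G_Q` an extension of the
abelian variety `A` by `G_m^s` (`AbVarG`, `IsOneMotive`: see the description in
`Pool/Agent/Results/MP_5d33ca_ag/UnitaryOneMotives.lean` and `Pool/Agent/N208/OU/Defs.lean`; up to isogeny
these are all 1-motives over `ℚ̄`). It is a Nori motive. By theorems of Brylinski and André the motivic
Galois group `G(M)` is the Mumford-Tate group of the mixed Hodge structure `H_1(M)`; in particular it is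
connected, and so is its torsor `X(M)`. By Q1, in the form (ii) of the problem file, the comparison
isomorphism `φ_M` is a generic point of `X(M)`. So Q1 for `M` implies that every algebraic group
`G ⊆ GL(H_B(M))` over `ℚ` with a torsor over `ℚ̄` which contains `φ_M` (`ContainsPeriods`) contains `G(M)`:
if not, then `φ_M` is a point of a closed subset of `X(M)` of smaller dimension, defined over `ℚ̄`.

**Theorem.** Let the abelian part `A` be a direct factor of an abelian variety `C` over `ℚ̄`, let
`z i`, `a i`, `i < k`, be unitary places of `C`, and let `W` be a sum of spin parts of `H_1(C, ℂ)`, such that the
part of the Hodge group of `C` which acts trivially on `W` and on the eigenspaces of `z i` for `± i a i`,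
for all `i`, acts trivially on the Mumford-Tate domain of `A` (`DomainOfParts`). Let `G` be an algebraic
group over `ℚ` with a torsor over `ℚ̄` which contains `φ_M`.

1. `G` contains the derived group of `G(M)`: it contains `exp (t Z)` for all complex numbers `t` and
   all `Z` in the derived algebra of the Lie algebra of the Mumford-Tate group of `M`.
2. If moreover the centre of the Lie algebra of the Hodge group of `C` is rigid (`RigidCentre`), then
   `G` contains `G(M)`. (The centre is rigid if it is zero, for example if `C` has no factor of type IV.)

There is no condition on the points which define the 1-motive.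

**The unitary places** (`Places`). The `z i` are central endomorphisms of `C`, skew-symmetric for the
polarization, such that all elements of the centre of `End(C) ⊗ ℚ` are polynomials in `z i` on the
image of `z i`; both `i a` and `- i a`, `a = a i`, are eigenvalues of `z i` on the tangent space of `C`: the
signature `(r, s)` of the unitary group of the commutant `B` of `End(C)` at this place is indefinite. Each
place is of one of the following types: the signature is `(1, n)`, and `i a` and `- i a` are separated, or the
middle exterior power of a simple module of the place, twisted by a character, occurs in `H_1(C, ℝ)` as a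
simple module (`GoodBall`; this is possible for balls of odd dimension `n = 2 m - 1 ≥ 3`); or
`ℚ[z i]` is a field and some place of `z i` has these properties, the signature at the place `a i` being
arbitrary; or `B` is a division algebra of a prime degree on the image of `z i`, with arbitrary signature.
Different places have different signatures (`r : s ≠ r' : s'` and `r : s ≠ s' : r'`), or they are separated.

**The spin parts** (`SpinParts`). Let `𝔤` be the Lie algebra of the Hodge group of `C`. The direct summand
`W = W_1 ⊕ ... ⊕ W_l` of `H_1(C, ℂ)` has the inclusions `P σ` and the projections `Q σ`. The Lie algebra `𝔤`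
acts on `W_σ` through the orthogonal Lie algebra `so(r_σ)`, in a sum of spin representations, and scalars,
`r_σ = 3` or `r_σ ≥ 6`; `r_σ = 8` at most once; the scalars agree on parts with the same `r_σ`; and the
associative algebra generated by `𝔤 ⊗ ℂ` contains elements which act as the elements of `so(r_σ)` on `W_σ` and
by zero on the other parts of the same rank.

**The dimensions.** The complex Lie algebra of a unitary place is `sl(N)`, `N = r + s`, of the dimension
`N ² - 1` (`dimensionAt`), and we assume that it is different from `r_σ (r_σ - 1) / 2`, the dimension of
`so(r_σ)`.

**What is new.** The starting results are `UnitaryOneMotives` (1-motives, one central endomorphism, only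
unitary places), `RankTwoOneMotives` (1-motives) and `BallMotives` (pure motives, one odd ball); my earlier
result on this page, `OneMotivesOddBalls`, had odd balls and unitary places and no spin parts and is the
case `l = 0`. Now the abelian part can be of orthogonal type, or a product of unitary and
orthogonal types. Examples of `A` and `C = A × C'`, where `C'` is an auxiliary abelian variety (it can be zero
in the first two examples):

* abelian varieties of Weil type of dimension `4 d` with multiplication by a CM field of degree `2 d`,
  signature `(2, 2)` at all places and Hodge group `SU` (`r_σ = 6`, `d` parts);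
* abelian varieties whose homology is a spin representation of `Res_{F/ℚ} Spin(q)`, for quadratic forms `q`
  over a totally real field `F` of degree `d` with signature `(2, r - 2)` at all `d` places, `r = 7` or
  `r ≥ 9` (by the theorem of Satake and Deligne there are such families of abelian varieties);
* the abelian varieties dominated by the Kuga-Satake varieties of K3 surfaces and hyperkähler varieties
  with real multiplication, if the rank of the transcendental lattice over the field of real
  multiplication is at least six;
* products of these and of abelian varieties of unitary type, with the condition on the dimensions, with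
  different ranks if there are compact factors.

So for all 1-motives over such abelian varieties (with arbitrary points) every period group contains the
derived group of the motivic Galois group, and the whole motivic Galois group if the centre is rigid.

Nothing is assumed about periods: `AbVar` and `AbVarG` are descriptions of abelian varieties over `ℚ̄`
by theta functions (see `Pool/Agent/Y102/AVDefs.lean`), and the transcendence theorems which are used,
the theorem of Schneider and Lang and the transcendence of `π`, are proved in this repository. The group
`G` is not assumed to be reductive.

## Proof

The proof of `UnitaryOneMotives` reduces the theorem to a statement on the Lie algebra `𝔤`: all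
subalgebras `𝔮` of `𝔤` which act semisimply on `H_1(C, ℚ)` with the same commutant as `𝔤` have the same
derived algebra, on `W` and on the sum of the eigenspaces of the `z i` for `± i a i` together. This is the
theorem `Pool.Agent.Run7.h2.UO.jt` behind `MP_f11a48_ag.UnitaryAndSpinDomains` (rigidity of sums of spin
representations, and the lemma of Goursat for unitary places and spin parts). The reduction is repeated for
this situation in `Pool/Agent/Run7/h2/UO/V1.lean`; the definitions are in
`Pool/Agent/Run7/h2/UO/ODefs.lean`, `Pool/Agent/Run7/h2/EXT/ODefs.lean`,
`Pool/Agent/Run7/h2/OB/SODefs.lean` and `Pool/Agent/N208/OU/Defs.lean`. The odd balls are the theorem on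
middle exterior powers behind `OneMotivesOddBalls` (`Pool/Agent/Run7/h2/EXT`).
-/

namespace Pool.Agent.Results.MP_ae0f86_nt.OneMotivesSpinParts

open Module Matrix Pool.Agent.Y102 Pool.Agent.R917.OM Pool.Agent.N208.OneM Run7.h2.EXT.O
  Run7.h2.UOD.O

/-- **Theorem.** Let `M` be a 1-motive over `ℚ̄` with the abelian part `A`, and let `G` be an algebraic
group over `ℚ` with a torsor over `ℚ̄` which contains the comparison isomorphism of `M`. Let `A` be a
direct factor of an abelian variety `C` with unitary places `z i`, `a i`, such that different places have
different signatures or are separated, and with a sum `W` of spin parts, such that the dimensions of the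
Lie algebras of the places and of the parts are different, and such that the part of the Hodge
group of `C` which acts trivially on `W` and on the eigenspaces for `± i a i` acts trivially on the
Mumford-Tate domain of `A`.

1. `G` contains `exp (t Z)` for all complex numbers `t` and all `Z` in the derived algebra of the Lie
   algebra of the Mumford-Tate group of `M`.
2. If the centre of the Lie algebra of the Hodge group of `C` is rigid, then the Mumford-Tate group
   of `M` is contained in `G`. -/
theorem result (g n s : ℕ) (A : AbVarG g) (u : Fin n → Fin g → ℂ) (v : Fin s → Fin g → ℂ)
    (ℓ : Fin n → Fin s → ℂ) (hM : IsOneMotive A u v ℓ)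
    (G : Subgroup (GL (Betti g n s) ℂ)) (hG : IsAlgebraicSubgroup G)
    (hP : ContainsPeriods A u v ℓ G) (g' : ℕ) (C : AbVar g') (f : A.toAbVar.H1 →ₗ[ℚ] C.H1)
    (p : C.H1 →ₗ[ℚ] A.toAbVar.H1) (hF : IsFactor A.toAbVar C f p)
    (k : ℕ) (z : Fin k → EndQ C) (a : Fin k → ℝ) (hU : Places C z a)
    (l : ℕ) (rk d : Fin l → ℕ)
    (E : ∀ σ, Fin (rk σ) → Matrix (Fin (d σ)) (Fin (d σ)) ℂ)
    (PW : ∀ σ, Matrix (Fin (2 * g')) (Fin (d σ)) ℂ)
    (QW : ∀ σ, Matrix (Fin (d σ)) (Fin (2 * g')) ℂ) (hS : SpinParts C E PW QW)
    (hdim : ∀ i σ, 2 * dimensionAt C (z i) (a i) ≠ rk σ * (rk σ - 1))
    (hD : DomainOfParts A.toAbVar C f p z a (∑ σ, PW σ * QW σ)) :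
    (∀ Z ∈ derived (mtLie A u v ℓ), ∀ t : ℂ, IsIn G (NormedSpace.exp (t • cplx Z))) ∧
      (RigidCentre C → mumfordTate A u v ℓ ≤ G) :=
  Run7.h2.UQ.main g n s A u v ℓ hM G hG hP g' C f p hF k z a hU l rk d E PW QW hS hdim hD

end Pool.Agent.Results.MP_ae0f86_nt.OneMotivesSpinParts
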