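import Pool.Agent.Run7.h225.HP.ALL2

/-!
# All multiple polylogarithms and products of hypergeometric motives at algebraic points: windows

A word `w` in the letters `0` and `1` which does not end with `0` is of the form `0^(s_1 - 1) 1 ⋯ 0^(s_d - 1) 1`, the multiple
polylogarithm `Li_w(z) = ∑_{k_1 > … > k_d ≥ 1} z^(k_1) / (k_1^(s_1) ⋯ k_d^(s_d))` and `log z` are, together with `2πi` and the
values at `z = 1`, the periods of the mixed Tate motives of the fundamental groupoid of the projective line without `0`, `1`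
and `∞` between `0` and `z`. The torsor of the polylogarithms is the set of the characters of the shuffle algebra.

Let `α_1, …, α_n` be rational numbers which are not integers, `n ≥ 2`, `θ = z d/dz` and `Q(x) = ∏_j (x + α_j)`. We consider
the hypergeometric operators `θ^n - z Q(θ)`, with maximally unipotent monodromy at `z = 0`, the exponents `α_j` at infinity and
a pseudoreflection at `z = 1` of determinant `exp(2πi s)`, `s = ∑_j α_j`. Up to rational gauge transformations the equation
depends only on the `α_j` modulo `ℤ`; we normalise them such that `s = 0` if `s` is an integer, `Q(-x) = Q(x)` if the equation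
is self-dual and `n` is even, and `Q(-1-x) = -Q(x)` if it is self-dual and `n` is odd. The period matrices of the
corresponding families of motives at `z` near `0` are `A(z) Y(z) Ω` with the matrix `Y` of the derivatives of the Frobenius
solutions, `A` over a number field `(z)` and `Ω` constant (the periods of the limit). We take a finite list of such
equations, with exponents at infinity which are pairwise different modulo `ℤ` and different from those of the dual equations
(and not both an equation of order `2` with a reflection of order two at `1` and a self-dual one of order `3`, see Clausen's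
formula). The torsor `T_j(z)` of an equation of the list consists of the matrices `X` with `det X = (1 - z)^(-s)` and the
bilinear relations in the self-dual cases.

We consider the direct sum of all these motives, mixed Tate and hypergeometric, at the algebraic points of bounded degree in
short windows `z = 1 / (ξ - G u)` around every algebraic `1 / ξ` near `0`, and prove, up to a bounded number of points of the
window, that all polynomial relations of bounded degree over number fields of bounded degree between the entries of the `Ω_j`,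
further constants (such as `2πi` and multiple zeta values), the logarithms, the values of all multiple polylogarithms of
bounded weight and the period matrices at any number of points of the window hold on the product of the torsors: they are
consequences of relations between the constants, the shuffle relations, the determinants and the bilinear relations.
-/

set_option autoImplicit false

open PowerSeries Pool.Agent.Y119.HZ Pool.Agent.Run7.h225.HG

namespace Pool.Agent.Results.MP_ae0f86_nt.PolylogsHypergeometricWindows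

/-- The coefficients of the multiple polylogarithm of a word in the letters `0` (`false`) and `1` (`true`); for the word
`0^(s_1 - 1) 1 ⋯ 0^(s_d - 1) 1` the coefficient at `k` is the sum of all `1 / (k_1^(s_1) ⋯ k_d^(s_d))` with
`k = k_1 > … > k_d ≥ 1`. -/
def coef : List Bool → ℕ → ℚ
  | [], k => if k = 0 then 1 else 0
  | false :: w, k => coef w k / k
  | true :: w, k => (∑ j ∈ Finset.range k, coef w j) / k

/-- the multiple polylogarithm `Li_w(z)` -/
noncomputable def Li (w : List Bool) (z : ℂ) : ℂ := ∑' k : ℕ, (coef w k : ℂ) * z ^ k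

/-- the word does not end with the letter `0` -/
def Convergent (w : List Bool) : Prop := w.getLast? ≠ some false

/-- the convergent words of length (weight) at most `W` -/
abbrev Word (W : ℕ) : Type := {w : List Bool // w.length ≤ W ∧ Convergent w}

/-- the terms of the shuffle product of two words -/
def shuffle : List Bool → List Bool → List (List Bool)
  | [], v => [v]
  | a :: u, [] => [a :: u]
  | a :: u, b :: v => (shuffle u (b :: v)).map (a :: ·) ++ (shuffle (a :: u) v).map (b :: ·)

/-- The characters of the shuffle algebra of the convergent words: `x(u) x(v)` is the sum of the values of `x` at the terms of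
the shuffle product of `u` and `v`. -/
def Character (x : List Bool → ℂ) : Prop :=
  x [] = 1 ∧ ∀ u v, Convergent u → Convergent v → x u * x v = ((shuffle u v).map x).sum

/-- A hypergeometric equation `θ^n f = z ∏_j (θ + α_j) f`. -/
structure Eqn where
  n : ℕ
  α : Fin n → ℚ

/-- the dual equation (the exponents at infinity are `-α_j`) -/
def Eqn.dual (e : Eqn) : Eqn := ⟨e.n, fun j => -e.α j⟩

/-- the multiset of the fractional parts of the `α_j` -/
def Eqn.frac (e : Eqn) : Multiset ℚ := Multiset.map (fun j => Int.fract (e.α j)) Finset.univ.val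

/-- the polynomial `Q = ∏_j (x + α_j)` -/
noncomputable def Eqn.poly (e : Eqn) : Polynomial ℚ := ∏ j, (Polynomial.X + Polynomial.C (e.α j))

/-- `Q(-x) = Q(x)` -/
def Eqn.Symplectic (e : Eqn) : Prop := e.poly.comp (-Polynomial.X) = e.poly

/-- `Q(-1-x) = -Q(x)` -/
def Eqn.Orthogonal (e : Eqn) : Prop := e.poly.comp (-(Polynomial.X + 1)) = -e.poly

/-- The order is at least two, the exponents at infinity are not integers, their sum is `0` or not an integer, and either the
fractional parts of the `α_j` and of the `-α_j` are different multisets or `Q(-x) = Q(x)` or `Q(-1-x) = -Q(x)`. -/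
def Eqn.Admissible (e : Eqn) : Prop :=
  2 ≤ e.n ∧ (∀ j, ∀ a : ℤ, e.α j ≠ a) ∧ (∑ j, e.α j = 0 ∨ ∀ a : ℤ, ∑ j, e.α j ≠ a) ∧
  (e.frac ≠ e.dual.frac ∨ e.Symplectic ∨ e.Orthogonal)

/-- The equations of a list are admissible, the exponents at infinity of different equations of the list, and of one of
them and of the dual of another one, are different modulo `ℤ`, and the list does not contain both an equation of order two
such that `s = ∑_j α_j ≠ 0` and `2 s` is an integer and an equation of order three with `Q(-1-x) = -Q(x)`. -/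
def Good {r : ℕ} (e : Fin r → Eqn) : Prop :=
  (∀ j, (e j).Admissible) ∧ (∀ i j, i ≠ j → (e i).frac ≠ (e j).frac ∧ (e i).frac ≠ (e j).dual.frac) ∧
  ∀ i j, (e i).n = 2 → (∃ a : ℤ, 2 * ∑ l, (e i).α l = a) → ∑ l, (e i).α l ≠ 0 → (e j).n = 3 → ¬ (e j).Orthogonal

/-- the power series `k + ε` in the variable `ε` -/
noncomputable def shift (k : ℕ) : PowerSeries ℚ := C (k : ℚ) + X

/-- `a_k(ε) = ∏_{l < k} Q(l + ε) / (l + 1 + ε)^n`. The series `∑_k a_k(ε) z^(k + ε)` solves the equation
`(θ^n - z Q(θ)) f = ε^n z^ε`, hence its coefficients `f_j` at `ε^j` with `j < n` are solutions of the homogeneous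
equation. -/
noncomputable def Eqn.frob (e : Eqn) (k : ℕ) : PowerSeries ℚ :=
  ∏ l ∈ Finset.range k, (Polynomial.aeval (shift l) e.poly * ((shift (l + 1))⁻¹) ^ e.n)

/-- The matrix with the entries `(θ^i f_j)(z)` at `z = 1 / ξ`, where `f_j(z)` is the coefficient of `ε^j` in the series
`∑_k a_k(ε) z^(k + ε)`, `z^ε = ∑_a (log z)^a ε^a / a!`, with the value `-l` of `log z`, where `exp l = ξ`. -/
noncomputable def Eqn.Y (e : Eqn) (ξ l : ℂ) : Matrix (Fin e.n) (Fin e.n) ℂ :=
  Matrix.of fun i j => ∑ a ∈ Finset.range ((j : ℕ) + 1), (-l) ^ a / (a.factorial : ℂ) *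
    ∑' k : ℕ, ((coeff ((j : ℕ) - a) (shift k ^ (i : ℕ) * e.frob k) : ℚ) : ℂ) * (1 / ξ) ^ k

/-- The matrix of the alternating form: the entry `(i, j)` is `(-1)^i q_{i+j+1-n}` for `i + j + 1 ≥ n` and `0`
otherwise, where `q_l` are the coefficients of `Q`. -/
noncomputable def Eqn.J (e : Eqn) : Matrix (Fin e.n) (Fin e.n) ℂ :=
  Matrix.of fun i j => if e.n ≤ (i : ℕ) + j + 1 then (((-1) ^ (i : ℕ) * e.poly.coeff (i + j + 1 - e.n) : ℚ) : ℂ) else 0

/-- the polynomial `(Q(x) + Q(y)) / (x + y + 1)`, a polynomial in `y` with coefficients in `ℚ[x]` -/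
noncomputable def lagrange (Q : Polynomial ℚ) : Polynomial (Polynomial ℚ) :=
  (Polynomial.C Q + Q.map Polynomial.C) /ₘ (Polynomial.X + Polynomial.C (Polynomial.X + 1))

/-- The matrix of the symmetric form on the fibre at `z`: the entry `(i, j)` is the coefficient of `x^i y^j` in
`(x^n + y^n) / (x + y) - z (Q(x) + Q(y)) / (x + y + 1)`. -/
noncomputable def Eqn.B (e : Eqn) (z : ℂ) : Matrix (Fin e.n) (Fin e.n) ℂ :=
  Matrix.of fun i j => (if (i : ℕ) + j + 1 = e.n then (-1) ^ (i : ℕ) else 0) -
    z * ((((lagrange e.poly).coeff j).coeff i : ℚ) : ℂ)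

/-- The torsor of the equation at `z`: the matrices `X` with `det X = (1 - z)^(-s)` (principal branch), `s = ∑_j α_j`, and
`Xᵀ J X = J` if `Q(-x) = Q(x)`, and `Xᵀ B(z) X = B(0)` if `Q(-1-x) = -Q(x)`. -/
def Eqn.T (e : Eqn) (z : ℂ) : Set (Matrix (Fin e.n) (Fin e.n) ℂ) :=
  {X | X.det = Complex.exp (-((∑ j, e.α j : ℚ) : ℂ) * Complex.log (1 - z)) ∧
    (e.Symplectic → X.transpose * e.J * X = e.J) ∧ (e.Orthogonal → X.transpose * e.B z * X = e.B 0)}

/-- the coordinates: `k` numbers, `k` lists of matrices and `k` numbers for every word -/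
abbrev Coord {r : ℕ} (e : Fin r → Eqn) (k W : ℕ) : Type :=
  (Σ _ : Fin k, Option (Σ j : Fin r, Fin (e j).n × Fin (e j).n)) ⊕ Fin k × Word W

/-- the point with the coordinates `l_i`, the entries of the matrices `X_ij` and the numbers `x_i(w)` -/
def point {r k W : ℕ} {e : Fin r → Eqn} (l : Fin k → ℂ) (X : Fin k → ∀ j, Matrix (Fin (e j).n) (Fin (e j).n) ℂ)
    (x : Fin k → List Bool → ℂ) : Coord e k W → ℂ
  | Sum.inl ⟨i, none⟩ => l i
  | Sum.inl ⟨i, some ⟨j, p⟩⟩ => X i j p.1 p.2
  | Sum.inr (i, w) => x i w.1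

/-- the coordinates of the constants: the entries of the `Ω_j` and `q` further numbers `v` -/
def consts {r q : ℕ} {e : Fin r → Eqn} (Ω : ∀ j, Matrix (Fin (e j).n) (Fin (e j).n) ℂ) (v : Fin q → ℂ) :
    (Σ j : Fin r, Fin (e j).n × Fin (e j).n) ⊕ Fin q → ℂ := Sum.elim (fun p => Ω p.1 p.2.1 p.2.2) v

/-- `ξ` is a root of a nonzero integral polynomial of degree at most `g` with coefficients of size at most `|ξ|^A` -/
def Height (g A : ℕ) (ξ : ℂ) : Prop :=
  ∃ p : Polynomial ℤ, p ≠ 0 ∧ p.natDegree ≤ g ∧ (∀ j, |(p.coeff j : ℝ)| ≤ ‖ξ‖ ^ A) ∧ Polynomial.aeval ξ p = 0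

/-- For all choices `l_i` of the logarithms of the `ξ_i` and all number fields `K` of degree `≤ d`, every polynomial of
degree `≤ δ` over `K` which vanishes at the point with the coordinates `Ω`, `v`, `l_i`, the entries of the matrices
`Y_j(1 / ξ_i) Ω_j` and the values `Li_w(1 / ξ_i)`, `w` of weight `≤ W`, vanishes at all points with the coordinates `Ω`, `v`,
`l'_i ∈ ℂ`, the entries of `X_ij Ω_j` with `X_ij ∈ T_j(1 / ξ_i)` and the values of arbitrary characters `x_i` of the shuffle
algebra. -/
def Generic {r k q : ℕ} (δ d W : ℕ) (e : Fin r → Eqn) (Ω : ∀ j, Matrix (Fin (e j).n) (Fin (e j).n) ℂ) (v : Fin q → ℂ)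
    (ξ : Fin k → ℂ) : Prop :=
  ∀ l : Fin k → ℂ, (∀ i, Complex.exp (l i) = ξ i) →
    ∀ K : IntermediateField ℚ ℂ, FiniteDimensional ℚ K → Module.finrank ℚ K ≤ d →
    ∀ P : MvPolynomial (((Σ j : Fin r, Fin (e j).n × Fin (e j).n) ⊕ Fin q) ⊕ Coord e k W) K, P.totalDegree ≤ δ →
    MvPolynomial.aeval
      (Sum.elim (consts Ω v) (point l (fun i j => (e j).Y (ξ i) (l i) * Ω j) fun i w => Li w (1 / ξ i))) P = 0 →
    ∀ (l' : Fin k → ℂ) (X : Fin k → ∀ j, Matrix (Fin (e j).n) (Fin (e j).n) ℂ) (x : Fin k → List Bool → ℂ),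
      (∀ i j, X i j ∈ (e j).T (1 / ξ i)) → (∀ i, Character (x i)) →
      MvPolynomial.aeval (Sum.elim (consts Ω v) (point l' (fun i j => X i j * Ω j) x)) P = 0

theorem coef_eq (w : List Bool) (k : ℕ) : coef w k = Pool.Agent.Run7.h225.HP.cw w k := by
  induction w generalizing k with
  | nil => rfl
  | cons a w ih =>
    rcases a with _ | _
    · rw [coef, Pool.Agent.Run7.h225.HP.cw, ih]
    · rw [coef, Pool.Agent.Run7.h225.HP.cw]
      simp only [ih]

theorem Li_eq (w : List Bool) (z : ℂ) :
    Li w z = Pool.Agent.Run7.h225.HP.vz z (Pool.Agent.Run7.h225.HP.lw w) := by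
  unfold Li Pool.Agent.Run7.h225.HP.vz Pool.Agent.Y916.Al.evc Pool.Agent.Run7.h225.HP.lw
  refine tsum_congr fun k => ?_
  rw [coef_eq, coeff_mk]

theorem shuffle_eq (u v : List Bool) : shuffle u v = Pool.Agent.Run7.h225.HP.sh u v := by
  induction u generalizing v with
  | nil => rw [shuffle, Pool.Agent.Run7.h225.HP.sh]
  | cons a u ihu =>
    induction v with
    | nil => rw [shuffle, Pool.Agent.Run7.h225.HP.sh]
    | cons b v ihv => rw [shuffle, Pool.Agent.Run7.h225.HP.sh, ihu, ihv]

theorem char_iff (x : List Bool → ℂ) : Character x ↔ Pool.Agent.Run7.h225.HP.Chr x := by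
  constructor
  · rintro ⟨h1, h2⟩
    exact ⟨h1, fun u v hu hv => by rw [h2 u v hu hv, shuffle_eq]⟩
  · rintro ⟨h1, h2⟩
    exact ⟨h1, fun u v hu hv => by rw [h2 u v hu hv, shuffle_eq]⟩

theorem point_eq {r k W : ℕ} {e : Fin r → Eqn} (l : Fin k → ℂ)
    (X : Fin k → ∀ j, Matrix (Fin (e j).n) (Fin (e j).n) ℂ) (x : Fin k → List Bool → ℂ) :
    point (W := W) l X x = Sum.elim (pjc (n := fun j => (e j).n) l X) fun p => x p.1 p.2.1 := by
  funext v
  obtain ⟨i, _ | ⟨j, p⟩⟩ | ⟨i, w⟩ := v
  · rfl
  · rfl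
  · rfl

/-- reordering of the coordinates -/
def ro (A B C : Type) : A ⊕ (B ⊕ C) → (A ⊕ B) ⊕ C
  | Sum.inl a => Sum.inl (Sum.inl a)
  | Sum.inr (Sum.inl b) => Sum.inl (Sum.inr b)
  | Sum.inr (Sum.inr c) => Sum.inr c

theorem elim_ro {A B C : Type} {K : IntermediateField ℚ ℂ} (f : A → ℂ) (g : B → ℂ) (h : C → ℂ)
    (P : MvPolynomial (A ⊕ (B ⊕ C)) K) :
    MvPolynomial.aeval (Sum.elim (Sum.elim f g) h) (MvPolynomial.rename (ro A B C) P) =
      MvPolynomial.aeval (Sum.elim f (Sum.elim g h)) P := by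
  rw [MvPolynomial.aeval_rename]
  congr 2
  funext v
  rcases v with a | b | c <;> rfl

theorem frob_eq (e : Eqn) (k : ℕ) : e.frob k = Pool.Agent.Y119.HY.aq e.n e.poly k := rfl

theorem J_eq (e : Eqn) : e.J = Pool.Agent.Y119.HY.cm (Pool.Agent.Y119.HY.Jm e.n e.poly) := by
  ext i j
  rw [Pool.Agent.Y119.HY.cm_apply]
  unfold Eqn.J Pool.Agent.Y119.HY.Jm
  rw [Matrix.of_apply, Matrix.of_apply]
  split_ifs
  · rfl
  · simp

theorem B_eq (e : Eqn) (z : ℂ) : e.B z = Run7.h893.HO.Bz (Pool.Agent.Y119.HY.cm (Run7.h893.HO.J0m e.n))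
    (Pool.Agent.Y119.HY.cm (Run7.h893.HO.J1m e.n e.poly)) z := by
  ext i j
  unfold Eqn.B Run7.h893.HO.Bz
  rw [Matrix.of_apply, Matrix.sub_apply, Matrix.smul_apply, Pool.Agent.Y119.HY.cm_apply, Pool.Agent.Y119.HY.cm_apply,
    smul_eq_mul]
  congr 1
  unfold Run7.h893.HO.J0m
  rw [Matrix.of_apply]
  split_ifs
  · push_cast
    rfl
  · rw [Rat.cast_zero]

theorem Y_eq (e : Eqn) (ξ l : ℂ) : e.Y ξ l = Pool.Agent.Y119.HY.Hf (Pool.Agent.Y119.HY.Hc e.n e.poly) (1 / ξ) *
    Pool.Agent.Y119.HY.E (Pool.Agent.Y119.HY.cm (Pool.Agent.Y119.HY.Am e.n)) (-l) := by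
  ext i j
  unfold Eqn.Y
  rw [Matrix.of_apply, Matrix.mul_apply]
  have hE : ∀ c : Fin e.n, Pool.Agent.Y119.HY.E (Pool.Agent.Y119.HY.cm (Pool.Agent.Y119.HY.Am e.n))
      (-l) c j = ∑ a ∈ Finset.range e.n, if (j : ℕ) = c + a then (-l) ^ a / (a.factorial : ℂ) else 0 := by
    intro c
    unfold Pool.Agent.Y119.HY.E
    rw [Matrix.sum_apply]
    refine Finset.sum_congr rfl fun a _ => ?_
    rw [Matrix.smul_apply, ← Pool.Agent.Y119.HY.cm_pow, Pool.Agent.Y119.HY.cm_apply, Pool.Agent.Y119.HY.Am_pow, smul_eq_mul]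
    split_ifs
    · push_cast
      ring
    · simp
  simp only [hE, Finset.mul_sum]
  rw [Finset.sum_comm]
  have hsub : Finset.range ((j : ℕ) + 1) ⊆ Finset.range e.n := by
    intro a ha
    rw [Finset.mem_range] at ha ⊢
    have := j.2
    omega
  refine Finset.sum_subset_zero_on_sdiff hsub (fun a ha => ?_) fun a ha => ?_
  · rw [Finset.mem_sdiff, Finset.mem_range, Finset.mem_range] at ha
    refine Finset.sum_eq_zero fun c _ => ?_
    rw [if_neg (by omega), mul_zero]
  · rw [Finset.mem_range] at ha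
    have hj := j.2
    rw [Finset.sum_eq_single (⟨(j : ℕ) - a, by omega⟩ : Fin e.n)]
    · rw [if_pos (by simp only; omega), mul_comm]
      congr 1
    · intro c _ hc
      rw [if_neg, mul_zero]
      intro h
      apply hc
      apply Fin.ext
      simp only
      omega
    · intro h
      exact absurd (Finset.mem_univ _) h

theorem types {r : ℕ} {e : Fin r → Eqn} (he : Good e) : ∃ W, JU (fun j => (e j).n) (fun j => (e j).poly) W :=
  JU_QA (n := fun j => (e j).n) (α := fun j => (e j).α) (fun j => (he.1 j).1) (fun j => (he.1 j).2.1)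
    (fun j => (he.1 j).2.2.1) (fun j => (he.1 j).2.2.2) (fun i j hij => he.2.1 i j hij) he.2.2

theorem T_eq {e : Eqn} (he : e.Admissible) (z : ℂ) : e.T z = TU e.n e.poly (Complex.log (1 - z)) z := by
  have h1 : e.poly.coeff (e.n - 1) = ∑ j, e.α j := QA_coeff (by have := he.1; omega) e.α
  have hQ := QG_QA he.1 (nonint he.2.1)
  have hB : e.B 0 = Pool.Agent.Y119.HY.cm (Run7.h893.HO.J0m e.n) := by
    rw [B_eq]
    unfold Run7.h893.HO.Bz
    rw [zero_smul, sub_zero]
  ext X
  unfold Eqn.T TU
  rw [h1, J_eq, hB, B_eq]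
  refine and_congr_right fun _ => and_congr ⟨fun h h2 => h ?_, fun h h2 => h ?_⟩ ⟨fun h h2 => h h2.sym, fun h h2 => h ?_⟩
  · exact even_of_QD h2
  · exact QD_of_even hQ h2
  · exact QO_of_comp he.1 (nonint he.2.1) h2

theorem mem_T {e : Eqn} (he : e.Admissible) {ξ l : ℂ} (hξ : 1 < ‖ξ‖) : e.Y ξ l ∈ e.T (1 / ξ) := by
  rw [T_eq he, Y_eq]
  refine mem_TU (QG_QA he.1 (nonint he.2.1)) ?_ _
  rw [norm_div, norm_one, div_lt_one (by linarith)]
  exact hξ

/-- Let `e_1, …, e_r` be a good list of hypergeometric equations. Then for `|ξ| > 1` the matrices `Y_j(1 / ξ)` lie in the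
torsors `T_j(1 / ξ)`, for all branches, and the numbers `Li_w(1 / ξ)` are a character of the shuffle algebra. For every `W`
there is `G_0` such that for all `G ≥ G_0`, all constant matrices `Ω_j` and all `q`, `k`, `g`, `d`, `δ`, `A` there is `E` such
that for all `H` and all algebraic `ξ` of degree `≤ g` and of height `≤ |ξ|^A` with `|ξ| ≥ (H + 2)^E` and all `v ∈ ℂ^q` there
are at most `trdeg ℚ(2 π i, Ω) + q + 1` exceptional numbers such that all `k`-tuples of distinct points
`z_i = 1 / (ξ - G u_i)` with `u_i ∈ {1, …, H}` not exceptional are generic: all relations of degree `≤ δ` over number fields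
of degree `≤ d` between `Ω`, `v`, the logarithms `log z_i`, the entries of the period matrices `Y_j(z_i) Ω_j` of all the
equations and the values `Li_w(z_i)` of all multiple polylogarithms of weight `≤ W` hold for all points of the torsors and all
characters of the shuffle algebra. -/
theorem result {r : ℕ} (e : Fin r → Eqn) (he : Good e) :
    (∀ ξ l : ℂ, 1 < ‖ξ‖ → Complex.exp l = ξ →
      (∀ j, (e j).Y ξ l ∈ (e j).T (1 / ξ)) ∧ Character fun w => Li w (1 / ξ)) ∧
    ∀ W : ℕ, ∃ G₀ : ℕ, ∀ G : ℕ, G₀ ≤ G → ∀ (Ω : ∀ j, Matrix (Fin (e j).n) (Fin (e j).n) ℂ) (q k g d δ A : ℕ), ∃ E : ℕ,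
      ∀ (H : ℕ) (ξ : ℂ), Height g A ξ → ((H : ℝ) + 2) ^ E ≤ ‖ξ‖ → ∀ v : Fin q → ℂ, ∃ S : Finset ℕ,
      (S.card : Cardinal) ≤ Algebra.trdeg ℚ (IntermediateField.adjoin ℚ (insert (2 * Real.pi * Complex.I)
        (Set.range fun p : Σ j : Fin r, Fin (e j).n × Fin (e j).n => Ω p.1 p.2.1 p.2.2))) + q + 1 ∧
      ∀ u : Fin k → ℕ, Function.Injective u → (∀ i, 1 ≤ u i ∧ u i ≤ H ∧ u i ∉ S) →
        (∀ i, 1 < ‖ξ - G * u i‖) ∧ Generic δ d W e Ω v fun i => ξ - G * u i := by
  classical
  obtain ⟨W', hJ⟩ := types he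
  refine ⟨fun ξ l hξ _ => ⟨fun j => mem_T (he.1 j) hξ, ?_⟩, fun W => ?_⟩
  · rw [char_iff]
    simp only [Li_eq]
    refine (Pool.Agent.Run7.h225.HP.pp.val Pool.Agent.Run7.h225.HP.pp.shuf).2 _ ?_
    rw [norm_div, norm_one, div_lt_one (by linarith)]
    exact hξ
  obtain ⟨G₀, -, hW⟩ := Pool.Agent.Run7.h225.HP.win_jp Pool.Agent.Run7.h225.HP.pp hJ W
  refine ⟨G₀, fun G hG Ω q k g d δ A => ?_⟩
  obtain ⟨Ex, h1⟩ := hW G hG Ω q k g d δ A
  refine ⟨Ex, fun H ξ hht hξ v => ?_⟩
  obtain ⟨S, hS, h2⟩ := h1 H ξ hξ hht v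
  refine ⟨S, hS, fun u hu hub => ?_⟩
  obtain ⟨h3, h4⟩ := h2 u hu hub
  have hcast : ∀ i, ((G * u i : ℕ) : ℂ) = G * u i := fun i => by push_cast; rfl
  simp only [hcast] at h3 h4
  refine ⟨h3, fun l hl K hKf hKd P hPd hP0 l' X x hX hx => ?_⟩
  have h5 := h4 l hl K hKf hKd (MvPolynomial.rename (ro _ _ _) P) ((MvPolynomial.totalDegree_rename_le _ _).trans hPd) (by
    rw [point_eq] at hP0
    simp only [Y_eq, Li_eq] at hP0
    exact (elim_ro _ _ _ P).trans hP0) l' X x (fun i j => by
    rw [← T_eq (he.1 j)]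
    exact hX i j) (fun i => (char_iff _).1 (hx i))
  rw [point_eq]
  exact (elim_ro _ _ _ P).symm.trans h5

end Pool.Agent.Results.MP_ae0f86_nt.PolylogsHypergeometricWindows
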