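import Pool.Agent.Run7.h358.A1.Og

set_option autoImplicit false

/-!
# Nori motives over `ℚ̄` generated by 1-motives with abelian part of type `A_1`

Let `M = [ℤ^n → G_Q]` be a 1-motive over the field `ℚ̄` of algebraic numbers, where `G_Q` is an extension of
the abelian variety `A` by `G_m^s`. Let `P_i = exp(u_i)` and `Q_l = φ(exp(v_l))` be the algebraic points of `A`
and of the dual abelian variety which belong to `M` (`φ` is the polarization). The periods of `M` are
`2 π i`, the periods and quasi-periods of `A`, the abelian integrals `u_i` and the integrals of the second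
kind `h_k(u_i)`, the periods of the third kind `∑ k, (h_k(v_l) λ_k - v_lk η_k)`, and the integrals of the third
kind `ℓ_il`. All 1-motives over `A` are of this form, up to isogeny (`IsOneMotive`, see the starting file
`MP_5d33ca_ag.UnitaryOneMotives`, whose definitions are used). The 1-motive defines a Nori motive, also
denoted by `M`, with the realizations `H_B(M) = H^1(M, ℚ)`, in a basis, `H_dR(M) = H^1_dR(M / ℚ̄)` and the
comparison isomorphism `c = periodMatrix A u v ℓ` (the rows are the Betti side). Its motivic Galois group
`G(M)` is the Mumford-Tate group `MT(M)` of the mixed Hodge structure of `M` (Brylinski, André).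

Q1 says that the evaluation `Per^f⟨M⟩ → ℂ` is injective, and that the torsor `X(M)` is connected (the
second part is known for 1-motives, as Mumford-Tate groups are connected). If this is true then

* (i) no algebraic group over `ℚ` which is smaller than `G(M)` explains the periods: if `ev` is a point of a
  torsor over `ℚ̄` of an algebraic group `G ⊆ GL(H_B(M))` over `ℚ`, then `G(M) ⊆ G`;
* (ii) the functor from `⟨M⟩^{⊗,∨}` to the category of de Rham-Betti objects (a rational vector space, a vector
  space over `ℚ̄`, and a comparison isomorphism over `ℂ`) is full: every rational linear map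
  `H_B(N) → H_B(N')` which maps `H_dR(N)` to `H_dR(N')` is a morphism of motives;
* (iii) every subobject of the de Rham-Betti object of `N` in `⟨M⟩^{⊗,∨}` comes from a submotive of `N`.

Here we prove (i), (ii) and (iii), unconditionally, for a large class of 1-motives.

* The group `dRBGroup A u v ℓ` is the smallest algebraic group `G ⊆ GL(H_B(M))` over `ℚ` such that the
  comparison isomorphism is a point of a torsor of `G` defined over `ℚ̄` (part 1 of the theorem says that it
  is an algebraic group with such a torsor).
* `IsDRBHom`: a rational linear map `H_B(M)^{⊗ b} → H_B(M)^{⊗ a}` which is a homomorphism of de Rham-Betti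
  objects, that is, it is given by an algebraic matrix `H_dR(M)^{⊗ b} → H_dR(M)^{⊗ a}`.
* `IsDRBSub`: a subspace of `H_B(M)^{⊗ a}` (with a basis) which is the Betti realization of a de Rham-Betti
  subobject: it is spanned over `ℂ` by the image of a subspace of `H_dR(M)^{⊗ a}`.

**Theorem.** Let `M` be *any* 1-motive over `ℚ̄` whose abelian part `A` is a factor (up to isogeny) of an
abelian variety `C` whose Hodge group is of type `A_1` (`TypeA1`, see below; the condition on pairs of
factors is satisfied after the replacement of `C` by a larger abelian variety). Let `x` be of the form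
`exp (t Z)`, where `Z` is in the derived algebra of the Lie algebra of `MT(M)` (these elements generate the
derived group of `MT(M)`, which contains the unipotent radical), or, if the condition `ControlledCentre` on the
centre of the Hodge group of `C` holds, an arbitrary element of `MT(M)` (`InPart`). Then:

* `x` is an element of `dRBGroup A u v ℓ`;
* `x` commutes with all homomorphisms of de Rham-Betti objects `M^{⊗ b} → M^{⊗ a}`;
* `x` stabilizes all de Rham-Betti subobjects of `M^{⊗ a}`.

So if `ControlledCentre` holds then (i), (ii) and (iii) are true for `M`: the theorem can be applied to the 1-motive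
`M ⊕ M^∨(1) ⊕ ℤ(1)` instead of `M` (its abelian part is isogenous to `A ^ 2`, again a factor of a power of
`C`), and all objects of `⟨M⟩^{⊗,∨}` are subquotients of the tensor powers of this 1-motive, up to Tate
twists. This is the case for *all* 1-motives over `ℚ̄` whose abelian part is a factor of an abelian variety
whose Hodge group is of type `A_1`, if the centres of the endomorphism algebras of its simple factors of type
IV are abelian over `ℚ` (or if there are no such factors), or a factor of a power of a simple abelian
fourfold of type IV(2,1).

There is no condition on the points: they may be dependent over `End(A)`, and the deficient 1-motives of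
Ribet and Jacquinot are included, whose Mumford-Tate group is smaller than the relations between the
points predict. There is no condition on the Mumford-Tate domain.

The starting results on 1-motives (`OneMotivesMumfordTate`, `UnitaryOneMotives` on MP_5d33ca_ag) are on (i),
for other types of abelian varieties: planes (among the abelian varieties of type `A_1` these are the products of
elliptic curves, and abelian varieties with real or totally indefinite quaternionic multiplication), spin
representations, tori, and unitary types. The fourfolds of Mumford, all other symplectic representations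
of groups of type `A_1` and centres are not covered, and there is nothing on (ii) and (iii) for mixed
motives. For (pure) abelian varieties there are the theorems of Kreutz, Shen and Vial and of Ji on products
of elliptic curves, some abelian surfaces, and some simple abelian fourfolds of type IV.

Nothing is assumed about periods: `AbVar` and `AbVarG` are descriptions of abelian varieties over `ℚ̄`
by theta functions (see `Pool/Agent/Y102/AVDefs.lean`), and the transcendence theorems which are used,
the theorem of Schneider and Lang and the transcendence of `π`, are proved in this repository. In the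
following two sections the abelian variety `C` is denoted by `A`.

## Type `A_1`

Let `𝔤` be the Lie algebra of the endomorphisms of `H_1(A, ℚ)` which annihilate all classes that are Hodge
classes and de Rham-Betti classes (`InLie`); by the theorem of Deligne it is the Lie algebra of the Hodge
group of `A`. The Hodge group is *of type `A_1`* if the derived algebra of `𝔤 ⊗ ℂ` is a sum of Lie algebras
`sl(2)`. By the classification of the symplectic representations of Hodge groups (Deligne, Satake) the
irreducible constituents of `H_1(A, ℂ)` are then tensor products `V_S ⊗ χ` of the standard representations of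
the factors `i ∈ S` and of a character of the centre. In `TypeA1` the factors are given by
homomorphisms `φ i` (without unit element) from the algebra of the matrices of size two to the
endomorphisms of `H_1(A, ℂ)`, such that `𝔤 ⊗ ℂ` is the sum of its centre and of the `φ i (sl(2))`. Let
`i ≠ k` be two factors. We assume that one of the following is true:

* (`CompactAt`) for some automorphism `σ` of `ℂ` one of the conjugates `σ(i)` and `σ(k)` is a compact
  factor (it commutes with the complex structure of `H_1(A, ℝ)`), and the other one is not compact;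
* (`InSeparatedPosition`) there is a constituent on which `i` and `k` both act nontrivially, or there are
  constituents `V ⊗ U` and `V' ⊗ U`, where `V` and `V'` are the standard representations of `i` and `k`, and
  `U` is a representation of the other factors and of the centre.

**Every abelian variety `A` over `ℚ̄` whose Hodge group is of type `A_1` is a factor of an abelian variety
over `ℚ̄` with this property.** Suppose that the first condition is false for `i` and `k`, and that `k` acts
trivially on a constituent `V ⊗ U`, where `V` is the standard representation of `i`. Then for all `σ` the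
conjugate by `σ` of `V' ⊗ U` has the same Hodge types as that of `V ⊗ U`, that is `(-1, 0)` and `(0, -1)`, as
`σ(i)` and `σ(k)` are both compact or both noncompact. So there is an abelian variety `A'` whose constituents
are these representations, and it is defined over `ℚ̄`, as it has the same adjoint Hodge group as `A` (the
maps between the Shimura varieties are defined over `ℚ̄`). The factors `i` and `k` are in separated position
for `A × A'`, whose Hodge group has the same adjoint group; and its centre is zero if the centre of the Hodge
group of `A` is finite. The motives in the tensor category generated by `h^1(A)` are among those in the tensor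
category generated by `h^1(A × A')`.

Examples of abelian varieties whose Hodge group is of type `A_1`: all products of elliptic curves; the
abelian surfaces with real or quaternionic multiplication; the simple abelian varieties of the types I and II
of Albert whose commutant of `End(A)` has dimension four over its centre; the abelian varieties of Mumford
(`H_1(A, ℂ) = ℂ² ⊗ ℂ² ⊗ ℂ²`, `End(A) = ℤ`, with Hodge classes on `A ^ 2` which are not combinations of products of
classes of divisors) and their generalizations; the Kuga-Satake varieties of Hodge structures of K3 type of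
rank three and four over the field of their endomorphisms, if it is totally real; the simple abelian
fourfolds of type IV(2,1), where `End(A) ⊗ ℚ` is a CM field of degree four; in general,
the abelian varieties which belong to the quaternionic Shimura varieties of all totally real fields `F₀`,
for instance to the Shimura curves, for all symplectic embeddings (the *modèles étranges* of Deligne), where some
factors are compact; and all products of such abelian varieties and abelian varieties with complex
multiplication.

## The centre

The condition `ControlledCentre`: `A` is a factor of an abelian variety `C` such that the centre of the Lie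
algebra of the Hodge group of `C` is rigid, and all elements of the centre of `𝔤` are restrictions of
elements of it. *Rigid* means: for every element `X` of the centre which generates it relative to the derived
algebra (`Generates`), all relations `∑ x i = 0` between eigenvalues of `X` for eigenvectors `v i` imply the
relations `∑ y i = 0` for the eigenvalues of all elements `Y` of the centre, for the same eigenvectors.
If `A` has no factor of type IV then the centre is zero, and the condition is true with `C = A`.

**The condition is true for all `A` such that the centres of the endomorphism algebras of the simple factors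
of type IV are abelian over `ℚ`.** Let `L` be a CM field which contains these centres and is Galois over `ℚ`
with an abelian group `Γ`, and let `C` be the product of `A` and of the abelian varieties `A_Φ` with complex
multiplication by `L` and of the type `Φ`, for all CM types `Φ ⊆ Γ`. The centre of the Lie algebra of the
Hodge group of `C` consists of the elements `x ∈ L` with `x̄ = - x`: it is the odd part of the Lie algebra of
the Serre torus of `L`, as this torus is generated by the conjugates of its cocharacter, and is mapped onto
the centre for `A`. The eigenvalues of `x` on `H_1(A_Φ, ℂ)` are the conjugates of `∑_{t ∈ Φ} t⁻¹(x)`, and all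
the eigenvalues on `H_1(C, ℂ)` are of the form `∑_t c_t t⁻¹(x)` with odd rational functions `c` on `Γ`. A
nonzero odd function `f` with the values `0`, `1`, `-1` is the difference of two CM types `Φ`, `Φ'`, and so
`∑_t f_t t⁻¹(x) ≠ 0` if `x` is generating: otherwise a homomorphism between the homologies of `A_Φ` and `A_Φ'`
commutes with `x`, and not with the centre. The odd functions `c` with `∑_t c_t t⁻¹(x) = 0` are an ideal of
`ℚ[Γ]`. If there is a function `c ≠ 0` in it, let `χ` be a character of `Γ` with `∑_t c_t χ(t) ≠ 0`, let `N` be the
kernel of `χ`, and `τ_q ∈ Γ` an element whose image in the cyclic group `Γ / N` is of order `q`, for all prime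
numbers `q` which divide the order of this group. The element `f = ∏_q (1 - τ_q) ∑_{n ∈ N} n` has the
coefficients `0`, `1`, `-1`, and it is in the ideal, because `ψ(f) ≠ 0` for the conjugates `ψ` of `χ` only.
This is a contradiction, so the only relations between the eigenvalues of `x` are those which hold for
all elements of the centre. (This is the argument of the starting file `MP_470b79_ag.AbelianCMTensors` on
complex multiplication by abelian fields.)

Let `A` be a simple abelian fourfold such that `End(A) ⊗ ℚ` is a CM field `F` of degree four. Then `A` is of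
type `A_1` with one compact and one noncompact factor (Shimura), and the centre consists of the elements
`x ∈ F` with `x̄ = - x`. If `F` is not abelian over `ℚ` then it has no imaginary quadratic subfield, and so
different conjugates `a`, `b ≠ - a` of such an element `x ≠ 0` are linearly independent over `ℚ`, and the
centre is rigid. So `ControlledCentre` holds for all simple abelian fourfolds with `End(A) ⊗ ℚ` a quartic CM
field.

## Proof

The part on algebraic groups with a torsor containing the comparison isomorphism (`main`) is my theorem
`MP_12eca1_ag.TypeA1OneMotives`, with the same proof; see there. The comparison matrix is invertible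
(`A1.pq_det`). A point of the torsors with algebraic coordinates is found with the Nullstellensatz: there is
a matrix `F` with algebraic entries which satisfies all polynomial equations over `ℚ̄` which are satisfied by
the comparison matrix `c` (`FG.exists_point`). Then `c F⁻¹` is in all groups `G` over `ℚ` with a torsor over
`ℚ̄` containing `c`, so `dRBGroup` has such a torsor. The stabilizers of a de Rham-Betti homomorphism and of
a de Rham-Betti subobject are algebraic groups over `ℚ` which contain `c F⁻¹` (`FG.base_two`), so they contain
`dRBGroup`.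
-/

open Module Matrix Pool.Agent.Y102 Pool.Agent.W516.DR Pool.Agent.H204R3.GP Pool.Agent.R917.OM
  Pool.Agent.N208.OneM

noncomputable section

namespace Pool.Agent.Results.MP_ae0f86_nt.TypeA1OneMotiveFullness

variable {g : ℕ} (A : AbVar g)

/-! ### Type `A_1` -/

/-- The complex Lie algebra `𝔤 ⊗ ℂ`, acting on `H_1(A, ℂ)`. -/
def lieC : Submodule ℂ (Matrix (Fin (2 * g)) (Fin (2 * g)) ℂ) :=
  Submodule.span ℂ {Y | ∃ X, InLie A X ∧ Y = toC A X}

/-- `z` commutes with `𝔤 ⊗ ℂ`. -/
def CommutesWithLie (z : Matrix (Fin (2 * g)) (Fin (2 * g)) ℂ) : Prop := ∀ Y ∈ lieC A, z * Y = Y * z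

/-- The complex structure: the matrix of the multiplication by `i` on `H_1(A, ℝ) = ℂ ^ g`, in the basis
of the lattice. -/
def complexStructure : Matrix (Fin (2 * g)) (Fin (2 * g)) ℂ :=
  Matrix.of fun i j => ((A.lam.repr (Complex.I • A.lam j) i : ℝ) : ℂ)

/-- The conjugate by the automorphism `σ` of `ℂ` of the factor `ψ` is compact: it commutes with the
complex structure. -/
def CompactAt (σ : ℂ ≃+* ℂ)
    (ψ : Matrix (Fin 2) (Fin 2) ℂ →ₗ[ℂ] Matrix (Fin (2 * g)) (Fin (2 * g)) ℂ) : Prop :=
  ∀ a, complexStructure A * (ψ a).map σ = (ψ a).map σ * complexStructure A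

/-- The factors `i` and `k` act nontrivially on a common constituent of `H_1(A, ℂ)`, or there are
constituents `V ⊗ U` and `V' ⊗ U`, where `V` and `V'` are the standard representations of the factors `i`
and `k`, and `U` is a representation of the other factors and of the centre. -/
def InSeparatedPosition {n : ℕ}
    (φ : Fin n → Matrix (Fin 2) (Fin 2) ℂ →ₗ[ℂ] Matrix (Fin (2 * g)) (Fin (2 * g)) ℂ)
    (i k : Fin n) : Prop :=
  φ i 1 * φ k 1 ≠ 0 ∨ ∃ N : Matrix (Fin (2 * g)) (Fin (2 * g)) ℂ,
    N ≠ 0 ∧ φ i 1 * N = N ∧ N * φ k 1 = N ∧
      (∀ l, l ≠ i → l ≠ k → ∀ a, N * φ l a = φ l a * N) ∧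
      ∀ z ∈ lieC A, CommutesWithLie A z → N * z = z * N

/-- **Type `A_1`.** The Lie algebra `𝔤 ⊗ ℂ` is the sum of its centre and of `n` Lie algebras `sl(2)`,
which act by tensor products of standard representations. For two factors some automorphism of `ℂ` maps one
of them to a compact factor and the other one to a noncompact factor, or they are in separated
position. -/
def TypeA1 : Prop :=
  ∃ (n : ℕ) (φ : Fin n → Matrix (Fin 2) (Fin 2) ℂ →ₗ[ℂ] Matrix (Fin (2 * g)) (Fin (2 * g)) ℂ),
    (∀ i a b, φ i (a * b) = φ i a * φ i b) ∧
    (∀ i k, i ≠ k → ∀ a b, φ i a * φ k b = φ k b * φ i a) ∧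
    (∀ i, φ i 1 ≠ 0) ∧
    (∀ i x, x.trace = 0 → φ i x ∈ lieC A) ∧
    (∀ X ∈ lieC A, ∃ x : Fin n → Matrix (Fin 2) (Fin 2) ℂ, (∀ i, (x i).trace = 0) ∧
      CommutesWithLie A (X - ∑ i, φ i (x i))) ∧
    ∀ i k, i ≠ k → InSeparatedPosition A φ i k ∨
      ∃ σ : ℂ ≃+* ℂ, ¬ (CompactAt A σ (φ i) ↔ CompactAt A σ (φ k))

/-! ### The centre -/

/-- `A` is a factor of an abelian variety `C` such that the centre of the Lie algebra of the Hodge
group of `C` is rigid and acts on `A` through all elements of the centre of `𝔤`. -/
def ControlledCentre : Prop :=
  ∃ (g' : ℕ) (C : AbVar g') (f : A.H1 →ₗ[ℚ] C.H1) (p : C.H1 →ₗ[ℚ] A.H1),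
    IsFactor A C f p ∧ RigidCentre C ∧
    ∀ Y, InCentre A Y → ∃ X, InCentre C X ∧ ∀ v, p (X (f v)) = Y v

/-! ### de Rham-Betti objects -/

section DRB

variable {g n s : ℕ} (A : AbVarG g) (u : Fin n → Fin g → ℂ) (v : Fin s → Fin g → ℂ)
  (ℓ : Fin n → Fin s → ℂ)

/-- The de Rham-Betti group of `M`: the smallest algebraic group over `ℚ` with a torsor over `ℚ̄` which
contains the comparison isomorphism. -/
def dRBGroup : Subgroup (GL (Betti g n s) ℂ) :=
  sInf {G | IsAlgebraicSubgroup G ∧ ContainsPeriods A u v ℓ G}

/-- The `a`-th tensor power of the matrix `x`, with the bases of the pure tensors of the bases. -/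
def tensorPower {R R' : Type} (a : ℕ) (x : Matrix R R' ℂ) : Matrix (Fin a → R) (Fin a → R') ℂ :=
  Matrix.of fun J K => ∏ k, x (J k) (K k)

/-- The complex matrix of a rational matrix. -/
def toComplex {I J : Type} (t : Matrix I J ℚ) : Matrix I J ℂ := Matrix.of fun i j => (t i j : ℂ)

/-- The rational linear map `H_B(M) ^ {⊗ b} → H_B(M) ^ {⊗ a}` with the matrix `t` is a homomorphism of de
Rham-Betti objects: together with a linear map `H_dR(M) ^ {⊗ b} → H_dR(M) ^ {⊗ a}`, with an algebraic matrix
`q`, it is compatible with the comparison isomorphisms. -/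
def IsDRBHom {a b : ℕ} (t : Matrix (Fin a → Betti g n s) (Fin b → Betti g n s) ℚ) : Prop :=
  ∃ q : Matrix (Fin a → DeRham g n s) (Fin b → DeRham g n s) ℂ, (∀ i j, IsAlgebraic ℚ (q i j)) ∧
    tensorPower a (periodMatrix A u v ℓ) * q = toComplex t * tensorPower b (periodMatrix A u v ℓ)

/-- The linearly independent columns of the matrix `t` are a basis of a subspace of `H_B(M) ^ {⊗ a}`
which is the Betti realization of a de Rham-Betti subobject of `M ^ {⊗ a}`: the comparison isomorphism maps
a subspace of `H_dR(M) ^ {⊗ a}` with the algebraic basis `q` to it. -/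
def IsDRBSub {a m : ℕ} (t : Matrix (Fin a → Betti g n s) (Fin m) ℚ) : Prop :=
  LinearIndependent ℚ (fun j i => t i j) ∧
    ∃ (q : Matrix (Fin a → DeRham g n s) (Fin m) ℂ) (d : Matrix (Fin m) (Fin m) ℂ),
      (∀ i j, IsAlgebraic ℚ (q i j)) ∧ d.det ≠ 0 ∧
      tensorPower a (periodMatrix A u v ℓ) * q = toComplex t * d

/-- The part of the Mumford-Tate group of `M` in the theorem: `x` is `exp (t Z)` for an element `Z` of the
derived algebra of its Lie algebra, or the condition `ControlledCentre` is satisfied and `x` is any element. -/
def InPart {g' : ℕ} (C : AbVar g') (x : GL (Betti g n s) ℂ) : Prop :=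
  (∃ Z ∈ derived (mtLie A u v ℓ), ∃ t : ℂ,
    (x : Matrix (Betti g n s) (Betti g n s) ℂ) = NormedSpace.exp (t • cplx Z)) ∨
  (ControlledCentre C ∧ x ∈ mumfordTate A u v ℓ)

end DRB

/-! ### The proof -/

variable {A}

theorem complexStructure_eq (A : AbVar g) :
    complexStructure A = Run7.h358.A1.cR (Run7.h358.A1.JM A) := by
  ext i j
  change ((A.lam.repr (Complex.I • A.lam j) i : ℝ) : ℂ) =
    algebraMap ℝ ℂ (LinearMap.toMatrix A.lam A.lam AbVar.JJ i j)
  rw [LinearMap.toMatrix_apply]
  rfl

theorem TypeA1.toWeak (h : TypeA1 A) : ∃ (n : ℕ)
    (φ : Fin n → Matrix (Fin 2) (Fin 2) ℂ →ₗ[ℂ] Matrix (Fin (2 * g)) (Fin (2 * g)) ℂ),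
    Run7.h358.A1.WeakA1 A φ := by
  obtain ⟨n, φ, h1, h2, h3, h4, h5, h6⟩ := h
  refine ⟨n, φ, ⟨h1, h2, h3, h4, h5⟩, fun i k hik => ?_⟩
  rcases h6 i k hik with h7 | ⟨σ, h7⟩
  · exact Or.inl h7
  · right
    refine ⟨σ, ?_⟩
    unfold CompactAt at h7
    rw [complexStructure_eq] at h7
    exact h7

/-- The theorem on one group `G` (`MP_12eca1_ag.TypeA1OneMotives`). -/
theorem main (g n s : ℕ) (A : AbVarG g) (u : Fin n → Fin g → ℂ) (v : Fin s → Fin g → ℂ)
    (ℓ : Fin n → Fin s → ℂ) (hM : IsOneMotive A u v ℓ) (g' : ℕ) (C : AbVar g')
    (f : A.toAbVar.H1 →ₗ[ℚ] C.H1) (p : C.H1 →ₗ[ℚ] A.toAbVar.H1) (hF : IsFactor A.toAbVar C f p)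
    (hC : TypeA1 C) (G : Subgroup (GL (Betti g n s) ℂ)) (hG : IsAlgebraicSubgroup G)
    (hP : ContainsPeriods A u v ℓ G) :
    (∀ Z ∈ derived (mtLie A u v ℓ), ∀ t : ℂ, IsIn G (NormedSpace.exp (t • cplx Z))) ∧
    (ControlledCentre C → mumfordTate A u v ℓ ≤ G) := by
  obtain ⟨k, φ, hφ⟩ := hC.toWeak
  have hL := hφ.derFull
  have hfc := hfac hF
  refine ⟨fun Z hZ t => hL.om_der hM hG hP hfc hZ t, fun ⟨g'', D, f', p', hf, hr, hc⟩ => ?_⟩
  refine Run7.h358.U2.om_all hM hG hP (hL.detJ hfc fun 𝔥 hbr h0 hRC => ?_)
  exact Run7.h358.A1.cn_le_fac hfc
    (⟨⟨hf.inclusion.1, hf.inclusion.2⟩, ⟨hf.projection.1, hf.projection.2⟩, hf.split⟩)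
    (hr.toRigid D) (fun Y hY => by
      obtain ⟨X, hX, hXY⟩ := hc Y ⟨hY.1, fun Z hZ => hY.2 Z hZ⟩
      exact ⟨X, ⟨hX.1, hX.2⟩, hXY⟩) hbr h0 hRC

theorem toComplex_eq {I J : Type} (t : Matrix I J ℚ) :
    toComplex t = Run7.h358.FG.cQ t := by
  ext i j
  exact (eq_ratCast (algebraMap ℚ ℂ) (t i j)).symm

/-- The group `dRBGroup` is an algebraic group, with a torsor over `ℚ̄` which contains the comparison
isomorphism; it commutes with de Rham-Betti homomorphisms and it stabilizes de Rham-Betti subobjects. -/
theorem dRB_main {g n s : ℕ} (A : AbVarG g) (u : Fin n → Fin g → ℂ) (v : Fin s → Fin g → ℂ)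
    (ℓ : Fin n → Fin s → ℂ) :
    (IsAlgebraicSubgroup (dRBGroup A u v ℓ) ∧ ContainsPeriods A u v ℓ (dRBGroup A u v ℓ)) ∧
    (∀ x ∈ dRBGroup A u v ℓ, ∀ (a b : ℕ)
      (t : Matrix (Fin a → Betti g n s) (Fin b → Betti g n s) ℚ), IsDRBHom A u v ℓ t →
      tensorPower a (x : Matrix (Betti g n s) (Betti g n s) ℂ) * toComplex t =
        toComplex t * tensorPower b (x : Matrix (Betti g n s) (Betti g n s) ℂ)) ∧
    (∀ x ∈ dRBGroup A u v ℓ, ∀ (a m : ℕ) (t : Matrix (Fin a → Betti g n s) (Fin m) ℚ),
      IsDRBSub A u v ℓ t → ∃ y : Matrix (Fin m) (Fin m) ℂ,
        tensorPower a (x : Matrix (Betti g n s) (Betti g n s) ℂ) * toComplex t =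
          toComplex t * y) := by
  have hc : ((periodMatrix A u v ℓ).submatrix id (ce g n s).symm).det ≠ 0 := by
    rw [periodMatrix_eq]
    exact Run7.h358.A1.pq_det
  obtain ⟨T, x₀, hT, hx₀, key, hhom, hsub⟩ := Run7.h358.FG.base_two (ce g n s) hc
  have hmem : ∀ G : Subgroup (GL (Betti g n s) ℂ), IsAlgebraicSubgroup G → x₀ ∈ G →
      dRBGroup A u v ℓ ≤ G := fun G hG hx => sInf_le ⟨hG, T, hT, x₀, hx, hx₀⟩
  refine ⟨⟨⟨{p | ∀ x ∈ dRBGroup A u v ℓ, MvPolynomial.aeval
    (fun b : Betti g n s × Betti g n s => (x : Matrix (Betti g n s) (Betti g n s) ℂ) b.1 b.2) p = 0},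
    fun x => ⟨fun hx p hp => hp x hx, fun hx => ?_⟩⟩,
    T, hT, x₀, ?_, hx₀⟩, fun x hx a b t ht => ?_, fun x hx a m t ht => ?_⟩
  · refine Subgroup.mem_sInf.2 ?_
    rintro G ⟨⟨I, hI⟩, hG⟩
    rw [hI]
    intro p hp
    refine hx p fun y hy => ?_
    have h1 : y ∈ G := Subgroup.mem_sInf.1 hy G ⟨⟨I, hI⟩, hG⟩
    exact (hI y).1 h1 p hp
  · exact Subgroup.mem_sInf.2 fun G hG => key G hG.1 hG.2
  · obtain ⟨q, hq, h⟩ := ht
    rw [toComplex_eq] at h ⊢
    exact hmem (Run7.h358.FG.stabHom t) (Run7.h358.FG.stabHom_alg t) (hhom a b t ⟨q, hq, h⟩) hx
  · obtain ⟨hli, q, d, hq, hd, h⟩ := ht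
    rw [toComplex_eq] at h ⊢
    have hv := Run7.h358.A1.left_inv hli
    exact hmem (Run7.h358.FG.stabSub t hv) (Run7.h358.FG.stabSub_alg t hv)
      (hsub a m t hv ⟨q, d, hq, hd, h⟩) hx

/-- **Theorem.** Let `M` be a 1-motive over `ℚ̄` whose abelian part `A` is a direct factor of an abelian
variety `C` whose Hodge group is of type `A_1`. Then the smallest algebraic group `dRBGroup` over `ℚ` which
has a torsor over `ℚ̄` containing the comparison isomorphism exists. Let `x` be `exp (t Z)`, where `Z` is in
the derived algebra of the Lie algebra of the Mumford-Tate group of `M`, or, if the condition `ControlledCentre`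
is satisfied, any element of the Mumford-Tate group. Then `x` is in `dRBGroup`, it commutes with all
homomorphisms of de Rham-Betti objects between the tensor powers of `M`, and it stabilizes all de Rham-Betti
subobjects of the tensor powers of `M`. -/
theorem result (g n s : ℕ) (A : AbVarG g) (u : Fin n → Fin g → ℂ) (v : Fin s → Fin g → ℂ)
    (ℓ : Fin n → Fin s → ℂ) (hM : IsOneMotive A u v ℓ) (g' : ℕ) (C : AbVar g')
    (f : A.toAbVar.H1 →ₗ[ℚ] C.H1) (p : C.H1 →ₗ[ℚ] A.toAbVar.H1) (hF : IsFactor A.toAbVar C f p)
    (hC : TypeA1 C) :
    (IsAlgebraicSubgroup (dRBGroup A u v ℓ) ∧ ContainsPeriods A u v ℓ (dRBGroup A u v ℓ)) ∧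
    ∀ x : GL (Betti g n s) ℂ, InPart A u v ℓ C x →
      x ∈ dRBGroup A u v ℓ ∧
      (∀ (a b : ℕ) (t : Matrix (Fin a → Betti g n s) (Fin b → Betti g n s) ℚ),
        IsDRBHom A u v ℓ t →
        tensorPower a (x : Matrix (Betti g n s) (Betti g n s) ℂ) * toComplex t =
          toComplex t * tensorPower b (x : Matrix (Betti g n s) (Betti g n s) ℂ)) ∧
      (∀ (a m : ℕ) (t : Matrix (Fin a → Betti g n s) (Fin m) ℚ), IsDRBSub A u v ℓ t →
        ∃ y : Matrix (Fin m) (Fin m) ℂ,
          tensorPower a (x : Matrix (Betti g n s) (Betti g n s) ℂ) * toComplex t =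
            toComplex t * y) := by
  obtain ⟨⟨h1, h0⟩, h2, h3⟩ := dRB_main A u v ℓ
  have h4 := main g n s A u v ℓ hM g' C f p hF hC (dRBGroup A u v ℓ) h1 h0
  have h5 : ∀ x : GL (Betti g n s) ℂ, InPart A u v ℓ C x → x ∈ dRBGroup A u v ℓ := by
    rintro x (⟨Z, hZ, t, hx⟩ | ⟨hz, hx⟩)
    · obtain ⟨y, hy, hyx⟩ := h4.1 Z hZ t
      have h6 : x = y := Units.ext (hx.trans hyx.symm)
      rw [h6]
      exact hy
    · exact h4.2 hz hx
  exact ⟨⟨h1, h0⟩, fun x hx => ⟨h5 x hx, h2 x (h5 x hx), h3 x (h5 x hx)⟩⟩

end Pool.Agent.Results.MP_ae0f86_nt.TypeA1OneMotiveFullness
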